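import Pool.Agent.Lib.MP_65c863_al.S2Deg
import Pool.Agent.Variants.MP_65c863_al.CubicSharp

/-! For every finite field `K` of odd order `q ^ 3`, the largest product-free subset of `SL(2, K)`
has between `n ^ (8 / 9) / 20` and `2 n ^ (8 / 9)` elements, `n` the order of the group. -/

namespace Pool.Agent.Results.MP_65c863_al.CubicOrder

open Pool.Agent.Lib.MP_65c863_al

theorem result (K : Type) [Field K] [Finite K] (q : ℕ) (hq : Odd q) (hK : Nat.card K = q ^ 3) :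
    ∃ m : ℕ, IsGreatest {k : ℕ | ∃ S : Set (Matrix.SpecialLinearGroup (Fin 2) K),
        (∀ a ∈ S, ∀ b ∈ S, a * b ∉ S) ∧ S.ncard = k} m ∧
      (1 / 20 : ℝ) * (Nat.card (Matrix.SpecialLinearGroup (Fin 2) K) : ℝ) ^ (8 / 9 : ℝ) ≤ (m : ℝ) ∧
      (m : ℝ) ≤ 2 * (Nat.card (Matrix.SpecialLinearGroup (Fin 2) K) : ℝ) ^ (8 / 9 : ℝ) := by
  classical
  have := Fintype.ofFinite K
  obtain ⟨S, h1, h2⟩ := Pool.Agent.Variants.MP_65c863_al.CubicSharp.result K q hq hK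
  have h3 : BddAbove {k : ℕ | ∃ S : Set (Matrix.SpecialLinearGroup (Fin 2) K),
      (∀ a ∈ S, ∀ b ∈ S, a * b ∉ S) ∧ S.ncard = k} :=
    ⟨_, by rintro _ ⟨S, -, rfl⟩; exact Set.ncard_le_card S⟩
  have hS : S.card ∈ {k : ℕ | ∃ S : Set (Matrix.SpecialLinearGroup (Fin 2) K),
      (∀ a ∈ S, ∀ b ∈ S, a * b ∉ S) ∧ S.ncard = k} :=
    ⟨S, fun a ha b hb hc => h1 a ha b hb _ hc rfl, Set.ncard_coe_finset S⟩
  have h4 := Nat.sSup_mem ⟨_, hS⟩ h3
  refine ⟨_, ⟨h4, fun k hk => le_csSup h3 hk⟩,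
    h2.trans (Nat.cast_le.2 (le_csSup h3 hS)), ?_⟩
  obtain ⟨A, h5, h6⟩ := h4
  have h7 := S4.gowers S2.quasi A.toFinset (by simpa using h5)
  have h8 := card_SL_le (K := K)
  have h9 : 1 < Fintype.card K := Fintype.one_lt_card
  rw [← h6, Set.ncard_eq_toFinset_card']
  rw [← Nat.card_eq_fintype_card (α := K), hK] at h7 h9
  rw [← Nat.card_eq_fintype_card] at h7
  rw [hK] at h8
  generalize A.toFinset.card = m at *
  generalize Nat.card (Matrix.SpecialLinearGroup (Fin 2) K) = n at *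
  have a1 : q ^ 3 * m ^ 3 ≤ 8 * n ^ 3 := by
    obtain ⟨t, ht⟩ := hq.pow (n := 3)
    have : q ^ 3 ≤ 8 * ((q ^ 3 - 1) / 2) := by omega
    calc q ^ 3 * m ^ 3 ≤ 8 * ((q ^ 3 - 1) / 2) * m ^ 3 := Nat.mul_le_mul_right _ this
      _ = 8 * ((q ^ 3 - 1) / 2 * m ^ 3) := by ring
      _ ≤ _ := Nat.mul_le_mul_left 8 h7
  have a2 : m ^ 9 ≤ 2 ^ 9 * n ^ 8 := by
    rcases Nat.eq_zero_or_pos n with rfl | hn
    · have : m = 0 := by
        by_contra hm
        have : 0 < q ^ 3 * m ^ 3 := Nat.mul_pos (by omega) (by positivity)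
        omega
      simp [this]
    · refine Nat.le_of_mul_le_mul_left ?_ hn
      calc n * m ^ 9 ≤ (q ^ 3) ^ 3 * m ^ 9 := Nat.mul_le_mul_right _ h8
        _ = (q ^ 3 * m ^ 3) ^ 3 := by ring
        _ ≤ (8 * n ^ 3) ^ 3 := Nat.pow_le_pow_left a1 3
        _ = _ := by ring
  refine le_of_pow_le_pow_left₀ (n := 9) (by norm_num) (by positivity) ?_
  rw [mul_pow, ← Real.rpow_natCast ((n : ℝ) ^ (8 / 9 : ℝ)), ← Real.rpow_mul (by positivity)]
  have e : (8 / 9 : ℝ) * ((9 : ℕ) : ℝ) = ((8 : ℕ) : ℝ) := by norm_num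
  rw [e, Real.rpow_natCast]
  exact_mod_cast a2

end Pool.Agent.Results.MP_65c863_al.CubicOrder
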