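import Pool.Agent.FS.PolyPF.Count

/-! A finite group acting transitively on the flags of a finite generalized quadrangle, hexagon or
octagon of order `(s, t)` has a product-free subset of density at least `1 / (72 s)`,
`1 / (72 s t)`, `1 / (72 s ^ 2 t)` respectively. -/

namespace Pool.Agent.Results.MP_65c863_al.Polygons

open Pool.Agent.FS.PolyPF

theorem result (V G : Type) [Finite V] [Group G] [Finite G] [MulAction G V]
    (Γ : SimpleGraph V) (pt : Set V) (m s t : ℕ) (hm : m = 2 ∨ m = 3 ∨ m = 4)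
    (hs : 1 ≤ s) (ht : 1 ≤ t)
    (hc : ∀ u v, Γ.Adj u v → (u ∈ pt ↔ v ∉ pt))
    (hp : ∀ v ∈ pt, (Γ.neighborSet v).ncard = t + 1)
    (hl : ∀ v ∉ pt, (Γ.neighborSet v).ncard = s + 1)
    (hdiam : Γ.ediam = (2 * m : ℕ)) (hgirth : Γ.egirth = (4 * m : ℕ))
    (hA : ∀ (g : G) (u v : V), Γ.Adj u v → Γ.Adj (g • u) (g • v))
    (hP : ∀ (g : G), ∀ v ∈ pt, g • v ∈ pt)
    (hF : ∀ p ∈ pt, ∀ q ∈ pt, ∀ l l' : V, Γ.Adj p l → Γ.Adj q l' →
      ∃ g : G, g • p = q ∧ g • l = l') :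
    ∃ S : Set G, (∀ a ∈ S, ∀ b ∈ S, a * b ∉ S) ∧
      Nat.card G ≤ 72 * s ^ (m / 2) * t ^ ((m - 1) / 2) * S.ncard := by
  have hG : Gi Γ (4 * m) := fun a w hw => by
    have := SimpleGraph.egirth_le_length hw
    rw [hgirth] at this
    exact_mod_cast this
  have hd : ∀ u v, Γ.edist u v ≤ (2 * m : ℕ) := fun u v => hdiam ▸ SimpleGraph.edist_le_ediam
  obtain ⟨x, l, hx, hxl⟩ : ∃ x l, x ∈ pt ∧ Γ.Adj x l := by
    have h1 : ¬ Γ.IsAcyclic := fun h => by
      rw [← SimpleGraph.egirth_eq_top, hgirth] at h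
      exact ENat.natCast_ne_top _ h
    simp only [SimpleGraph.IsAcyclic, not_forall, not_not] at h1
    obtain ⟨a, w, hw⟩ := h1
    have h2 := w.adj_getVert_succ (i := 0) (by have := hw.three_le_length; omega)
    by_cases h3 : w.getVert 0 ∈ pt
    · exact ⟨_, _, h3, h2⟩
    · exact ⟨_, _, (hc _ _ h2.symm).2 h3, h2.symm⟩
  have hlp : l ∉ pt := (hc _ _ hxl).1 hx
  have htr : ∀ u w, Γ.Adj x u → Γ.Adj x w → ∃ h : G, h • x = x ∧ h • u = w :=
    fun u w hu hw => hF x hx x hx u w hu hw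
  have hT : ∀ y ∈ pt, ∃ g : G, g • x = y := fun y hy => by
    obtain ⟨l', hl'⟩ := Set.nonempty_of_ncard_ne_zero (s := Γ.neighborSet y)
      (by rw [hp y hy]; omega)
    obtain ⟨g, hg, -⟩ := hF x hx y hy l l' hxl hl'
    exact ⟨g, hg⟩
  have h1 : Nat.card G = pt.ncard * {g : G | g • x = x}.ncard := by
    rw [← ncard_moves x pt hT, ← Set.ncard_univ]
    congr 1
    exact (Set.eq_univ_of_forall fun g => hP g x hx).symm
  have h2 := pts_le hG hs ht hc hp hl hd hlp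
  have h3 : ∀ i, 2 * (2 * i + 2) < 4 * m → {g : G | g • x ∈ Sph Γ x (2 * i + 2)}.ncard =
      (t + 1) * (s * t) ^ i * s * {g : G | g • x = x}.ncard := fun i hi => by
    rw [ncard_moves x _ fun y hy => hT y (((sph_colour hc _ y hy).2 (by omega)).2 hx),
      sph_even hG hc hp hl hx i hi]
  have h4 := half_bound ht
  have h5 : 0 < (t + 1) ^ 2 := by positivity
  rw [h1]
  generalize {g : G | g • x = x}.ncard = z at h3 ⊢
  generalize pt.ncard = P at h2 ⊢
  rcases hm with rfl | rfl | rfl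
  · obtain ⟨S, hS, hb⟩ := exists_free hG hA htr (d := 2 * 0 + 2) (a := (t + 1) / 2) (by omega)
      (hp x hx) (by omega) (Or.inl (by omega))
    refine ⟨S, hS, ?_⟩
    rw [h3 0 (by omega)] at hb
    generalize (t + 1) / 2 * (t + 1 - (t + 1) / 2) = A at hb h4
    have h6 : (t + 1) * (s * t) ^ 0 * s * z ≤ 9 * S.ncard :=
      Nat.le_of_mul_le_mul_left (by
        calc (t + 1) ^ 2 * ((t + 1) * (s * t) ^ 0 * s * z)
            ≤ 9 * A * ((t + 1) * (s * t) ^ 0 * s * z) := Nat.mul_le_mul_right _ h4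
          _ = 9 * (A * ((t + 1) * (s * t) ^ 0 * s * z)) := by ring
          _ ≤ 9 * ((t + 1) ^ 2 * S.ncard) := Nat.mul_le_mul_left _ hb
          _ = (t + 1) ^ 2 * (9 * S.ncard) := by ring) h5
    calc P * z ≤ 2 * (2 * s * (s * t) ^ (2 - 1)) * z := Nat.mul_le_mul_right _ h2
      _ = 4 * s * (t * (s * t) ^ 0 * s * z) := by norm_num; ring
      _ ≤ 8 * s * ((t + 1) * (s * t) ^ 0 * s * z) := by gcongr <;> omega
      _ ≤ 8 * s * (9 * S.ncard) := Nat.mul_le_mul_left _ h6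
      _ = _ := by norm_num; ring
  · obtain ⟨S, hS, hb⟩ := exists_free hG hA htr (d := 2 * 1 + 2) (a := 1) (by omega)
      (hp x hx) (by omega) (Or.inr (by omega))
    refine ⟨S, hS, ?_⟩
    rw [h3 1 (by omega), one_mul, Nat.add_sub_cancel] at hb
    have h6 : t * ((s * t) ^ 1 * s * z) ≤ 2 * t * S.ncard :=
      Nat.le_of_mul_le_mul_left (c := t + 1) (by
        calc (t + 1) * (t * ((s * t) ^ 1 * s * z)) = t * ((t + 1) * (s * t) ^ 1 * s * z) := by ring
          _ ≤ (t + 1) ^ 2 * S.ncard := hb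
          _ = (t + 1) * ((t + 1) * S.ncard) := by ring
          _ ≤ (t + 1) * (2 * t * S.ncard) := by gcongr; omega) (by omega)
    calc P * z ≤ 3 * (2 * s * (s * t) ^ (3 - 1)) * z := Nat.mul_le_mul_right _ h2
      _ = 6 * s * (t * ((s * t) ^ 1 * s * z)) := by norm_num; ring
      _ ≤ 6 * s * (2 * t * S.ncard) := Nat.mul_le_mul_left _ h6
      _ = 12 * (s * t * S.ncard) := by ring
      _ ≤ 72 * (s * t * S.ncard) := by omega
      _ = _ := by norm_num; ring
  · obtain ⟨S, hS, hb⟩ := exists_free hG hA htr (d := 2 * 1 + 2) (a := (t + 1) / 2) (by omega)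
      (hp x hx) (by omega) (Or.inl (by omega))
    refine ⟨S, hS, ?_⟩
    rw [h3 1 (by omega)] at hb
    generalize (t + 1) / 2 * (t + 1 - (t + 1) / 2) = A at hb h4
    have h6 : (t + 1) * (s * t) ^ 1 * s * z ≤ 9 * S.ncard :=
      Nat.le_of_mul_le_mul_left (by
        calc (t + 1) ^ 2 * ((t + 1) * (s * t) ^ 1 * s * z)
            ≤ 9 * A * ((t + 1) * (s * t) ^ 1 * s * z) := Nat.mul_le_mul_right _ h4
          _ = 9 * (A * ((t + 1) * (s * t) ^ 1 * s * z)) := by ring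
          _ ≤ 9 * ((t + 1) ^ 2 * S.ncard) := Nat.mul_le_mul_left _ hb
          _ = (t + 1) ^ 2 * (9 * S.ncard) := by ring) h5
    calc P * z ≤ 4 * (2 * s * (s * t) ^ (4 - 1)) * z := Nat.mul_le_mul_right _ h2
      _ = 8 * (s ^ 2 * t) * (t * (s * t) ^ 1 * s * z) := by norm_num; ring
      _ ≤ 8 * (s ^ 2 * t) * ((t + 1) * (s * t) ^ 1 * s * z) := by gcongr; omega
      _ ≤ 8 * (s ^ 2 * t) * (9 * S.ncard) := Nat.mul_le_mul_left _ h6
      _ = _ := by norm_num; ring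

end Pool.Agent.Results.MP_65c863_al.Polygons
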