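import Pool.Agent.Lib.MP_65c863_al.S4Deg
import Pool.Agent.Lib.MP_65c863_al.S4Low

/-! For every finite field `K` with `q` elements, the largest product-free subset of `SL(4, K)`
has between `n / (500 q)` and `2 n / q` elements, `n` the order of the group. -/

namespace Pool.Agent.Results.MP_65c863_al.SL4Order

open Pool.Agent.Lib.MP_65c863_al.S4

theorem result (K : Type) [Field K] [Finite K] :
    ∃ m : ℕ, IsGreatest {k : ℕ | ∃ S : Set (Matrix.SpecialLinearGroup (Fin 4) K),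
        (∀ a ∈ S, ∀ b ∈ S, a * b ∉ S) ∧ S.ncard = k} m ∧
      Nat.card (Matrix.SpecialLinearGroup (Fin 4) K) ≤ 500 * Nat.card K * m ∧
      Nat.card K * m ≤ 2 * Nat.card (Matrix.SpecialLinearGroup (Fin 4) K) := by
  classical
  have := Fintype.ofFinite K
  obtain ⟨S, h1, h2⟩ := lower (K := K)
  have h3 : BddAbove {k : ℕ | ∃ S : Set (Matrix.SpecialLinearGroup (Fin 4) K),
      (∀ a ∈ S, ∀ b ∈ S, a * b ∉ S) ∧ S.ncard = k} :=
    ⟨_, by rintro _ ⟨S, -, rfl⟩; exact Set.ncard_le_card S⟩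
  have h4 := Nat.sSup_mem ⟨S.ncard, by exact ⟨S, h1, rfl⟩⟩ h3
  refine ⟨_, ⟨h4, fun k hk => le_csSup h3 hk⟩,
    h2.trans (Nat.mul_le_mul_left _ (le_csSup h3 ⟨S, h1, rfl⟩)), ?_⟩
  obtain ⟨A, h5, h6⟩ := h4
  have h7 := gowers quasi A.toFinset (by simpa using h5)
  rw [← h6, Set.ncard_eq_toFinset_card', Nat.card_eq_fintype_card, Nat.card_eq_fintype_card]
  obtain ⟨p, hp⟩ : ∃ p, Fintype.card K = p + 2 := ⟨Fintype.card K - 2, by
    have := Fintype.one_lt_card (α := K); omega⟩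
  rw [hp] at h7 ⊢
  refine le_of_pow_le_pow_left₀ three_ne_zero (Nat.zero_le _) ?_
  calc ((p + 2) * A.toFinset.card) ^ 3 = (p + 2) * ((p + 2) ^ 2 * A.toFinset.card ^ 3) := by ring
    _ ≤ (8 * (p + 2 - 1)) * ((p + 2) ^ 2 * A.toFinset.card ^ 3) := by gcongr; omega
    _ = 8 * ((p + 2 - 1) * (p + 2) ^ 2 * A.toFinset.card ^ 3) := by ring
    _ ≤ 8 * _ := Nat.mul_le_mul_left 8 h7
    _ = _ := by ring

end Pool.Agent.Results.MP_65c863_al.SL4Order
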