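import Pool.Agent.Lib.MP_65c863_al.H98Count

/-! The projective special unitary group `PSU(3)` over a finite field with a nontrivial involution
and more than four elements, of order `n`, has a product-free subset with at least
`n ^ (7 / 8) / 1100` elements. -/

namespace Pool.Agent.Results.MP_65c863_al.UnitaryThree

open Pool.Agent.Lib.MP_65c863_al.H98 Finset

theorem arith_order {n m k : ℕ} (hm : 2 ≤ m) (hk : m ^ 2 ≤ k)
    (h4 : k * m * (k * m - 1) * (k * m) ≤ (m + 1) * n) : m ^ 8 ≤ 2 * n := by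
  have hm3 : 2 * (m + 1) ≤ 3 * m := by omega
  have e3 : m ^ 3 ≤ k * m := by
    calc m ^ 3 = m ^ 2 * m := by ring
      _ ≤ k * m := by gcongr
  have e4 : 8 ≤ m ^ 3 := by
    calc 8 = 2 ^ 3 := by norm_num
      _ ≤ m ^ 3 := by gcongr
  have e5 : 7 * m ^ 3 ≤ 8 * (k * m - 1) := by omega
  have e6 : m * (7 * m ^ 8) ≤ m * (12 * n) := by
    calc m * (7 * m ^ 8) = m ^ 3 * (7 * m ^ 3) * m ^ 3 := by ring
      _ ≤ (k * m) * (8 * (k * m - 1)) * (k * m) := by gcongr
      _ = 8 * (k * m * (k * m - 1) * (k * m)) := by ring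
      _ ≤ 8 * ((m + 1) * n) := by gcongr
      _ = 4 * (2 * (m + 1)) * n := by ring
      _ ≤ 4 * (3 * m) * n := Nat.mul_le_mul_right _ (Nat.mul_le_mul_left _ hm3)
      _ = m * (12 * n) := by ring
  have e7 : 7 * m ^ 8 ≤ 12 * n := Nat.le_of_mul_le_mul_left e6 (by omega)
  omega

theorem arith_density {n m k N a h x x0 s : ℕ} (hm : 3 ≤ m) (hk : k ≤ m ^ 2) (hN : m + 1 ≤ N)
    (h1 : n ≤ h * ((m + 1) * k ^ 2)) (h2 : N ^ 2 ≤ 96 * a) (h3 : m * (m - 1) * a * h ≤ x)
    (h4 : x ≤ 2 * x0) (h5 : x0 ≤ 4 * s) : n ≤ 864 * m * s := by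
  obtain ⟨j, rfl⟩ : ∃ j, m = j + 1 := ⟨m - 1, by omega⟩
  rw [Nat.add_sub_cancel] at h3
  have e1 : 8 * (j + 1) ^ 2 ≤ 9 * (j * (j + 1 + 1)) := by nlinarith
  have e2 : 8 * n ≤ 8 * (864 * (j + 1) * s) := by
    refine Nat.le_of_mul_le_mul_left (c := j + 1 + 1) ?_ (by omega)
    calc (j + 1 + 1) * (8 * n) ≤ (j + 1 + 1) * (8 * (h * ((j + 1 + 1) * ((j + 1) ^ 2) ^ 2))) := by
          gcongr
          exact h1.trans (by gcongr)
      _ = (8 * (j + 1) ^ 2) * ((j + 1) ^ 2 * h * (j + 1 + 1) ^ 2) := by ring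
      _ ≤ (9 * (j * (j + 1 + 1))) * ((j + 1) ^ 2 * h * (96 * a)) := by
          gcongr
          exact le_trans (by gcongr) h2
      _ = (j + 1 + 1) * (864 * (j + 1) * ((j + 1) * j * a * h)) := by ring
      _ ≤ (j + 1 + 1) * (864 * (j + 1) * (8 * s)) :=
          Nat.mul_le_mul_left _ (Nat.mul_le_mul_left _ (by omega))
      _ = (j + 1 + 1) * (8 * (864 * (j + 1) * s)) := by ring
  omega

theorem arith_final {n z nb m s sb : ℕ} (hz : 0 < z) (hz3 : z ≤ 3) (hn : n = nb * z)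
    (h1 : n ≤ 864 * m * s) (h2 : s ≤ z * sb) (h3 : m ^ 8 ≤ 2 * n) : nb ^ 7 ≤ (1100 * sb) ^ 8 := by
  have e1 : nb ≤ 864 * m * sb := by
    refine Nat.le_of_mul_le_mul_right (c := z) ?_ hz
    calc nb * z ≤ 864 * m * s := hn ▸ h1
      _ ≤ 864 * m * (z * sb) := by gcongr
      _ = 864 * m * sb * z := by ring
  have e2 : m ^ 8 ≤ 6 * nb := by
    calc m ^ 8 ≤ 2 * (nb * z) := hn ▸ h3
      _ ≤ 2 * (nb * 3) := by gcongr
      _ = 6 * nb := by ring
  rcases Nat.eq_zero_or_pos nb with rfl | hn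
  · simp
  refine Nat.le_of_mul_le_mul_left ?_ hn
  calc nb * nb ^ 7 = nb ^ 8 := by ring
    _ ≤ (864 * m * sb) ^ 8 := by gcongr
    _ = 864 ^ 8 * m ^ 8 * sb ^ 8 := by ring
    _ ≤ 864 ^ 8 * (6 * nb) * sb ^ 8 := by gcongr
    _ = (864 ^ 8 * 6) * (nb * sb ^ 8) := by ring
    _ ≤ 1100 ^ 8 * (nb * sb ^ 8) := by gcongr; norm_num
    _ = nb * (1100 * sb) ^ 8 := by ring

theorem result (K : Type) [Field K] [Finite K] [StarRing K] (hK : ∃ t : K, star t ≠ t)
    (h4 : 4 < Nat.card K) :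
    ∃ S : Set (Matrix.specialUnitaryGroup (Fin 3) K ⧸
        Subgroup.center (Matrix.specialUnitaryGroup (Fin 3) K)),
      (∀ a ∈ S, ∀ b ∈ S, ∀ c ∈ S, a * b ≠ c) ∧
      (Nat.card (Matrix.specialUnitaryGroup (Fin 3) K ⧸
        Subgroup.center (Matrix.specialUnitaryGroup (Fin 3) K)) : ℝ) ^ ((7 : ℝ) / 8) / 1100 ≤
        S.ncard := by
  classical
  obtain ⟨t, ht⟩ := hK
  have := Fintype.ofFinite K
  have := Fintype.ofFinite (SU K)
  obtain ⟨p, v, w, F, k, hk0, hk⟩ := exists_frame' ht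
  rw [Nat.card_eq_fintype_card] at h4
  have hm : 3 ≤ (fixedSet K).card := by
    by_contra h
    have h1 := card_le_sq_fixed ht
    have h2 : (fixedSet K).card ^ 2 ≤ 2 ^ 2 := by gcongr; omega
    omega
  have hN := fixed_lt_normOne ht
  obtain ⟨O, O2, hO, hOO, hO1, hO2⟩ := exists_arc (K := K) (by omega)
  obtain ⟨σ, hσ⟩ := exists_cut (univ.filter fun g : SU K => Adm v w k O O2 (act g w) ∧
      dir p v (uo w (act g w)) ≠ dir p v (act g⁻¹ (uo w (act g w))))
    (fun g => dir p v (uo w (act g w))) (fun g => dir p v (act g⁻¹ (uo w (act g w))))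
    fun g hg => (mem_filter.1 hg).2.2
  obtain ⟨S, hS⟩ : ∃ S, S = (univ.filter fun g : SU K => Adm v w k O O2 (act g w) ∧
      dir p v (uo w (act g w)) ≠ dir p v (act g⁻¹ (uo w (act g w)))).filter
      fun g => σ (dir p v (uo w (act g w))) = true ∧
        σ (dir p v (act g⁻¹ (uo w (act g w)))) = false := ⟨_, rfl⟩
  rw [← hS] at hσ
  refine ⟨↑(S.image (QuotientGroup.mk (s := Subgroup.center (SU K)))), ?_, ?_⟩
  · intro a ha b hb c hc h
    rw [mem_coe, mem_image] at ha hb hc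
    obtain ⟨a, ha, rfl⟩ := ha
    obtain ⟨b, hb, rfl⟩ := hb
    obtain ⟨c, hc, rfl⟩ := hc
    rw [← QuotientGroup.mk_mul, eq_comm, QuotientGroup.eq] at h
    obtain ⟨z, hz, -, hz'⟩ := central_w ht F h
    simp only [hS, mem_filter, mem_univ, true_and] at ha hb hc
    have h1 : act (a * b) w = z • act c w := by
      rw [← act_smul, ← hz', ← act_mul, mul_inv_cancel_left]
    have h2 := triangle F hk0 hOO hz h1 ha.1.1 hb.1.1 hc.1.1
    have h3 := ha.2.2
    rw [h2, hb.2.1] at h3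
    exact absurd h3 (by simp)
  · have hfib : S.card ≤ Nat.card (Subgroup.center (SU K)) *
        (S.image (QuotientGroup.mk (s := Subgroup.center (SU K)))).card := by
      refine card_le_mul_card_image _ _ ?_
      intro x hx
      obtain ⟨g, -, rfl⟩ := mem_image.1 hx
      rw [← Fintype.card_coe, ← Nat.card_eq_fintype_card]
      refine Nat.card_le_card_of_injective
        (fun y => ⟨g⁻¹ * y.1, QuotientGroup.eq.1 (mem_filter.1 y.2).2.symm⟩) ?_
      intro y y' h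
      exact Subtype.ext (mul_left_cancel (congrArg Subtype.val h))
    have key := arith_final Nat.card_pos (card_center_le ht F)
      ((Nat.card_eq_fintype_card (α := SU K)).symm.trans
        (Subgroup.card_eq_card_quotient_mul_card_subgroup _))
      (arith_density hm (card_le_sq_fixed ht) hN (card_le_stab ht F.hww) (card_pairs hO1 hO hO2)
        (card_adm ht F hk O2 hO) (adm_half ht F k O O2) hσ) hfib
      (arith_order (by omega) (sq_fixed_le ht) (order_lower ht F))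
    rw [Set.ncard_coe_finset, div_le_iff₀ (by norm_num)]
    refine le_of_pow_le_pow_left₀ (n := 8) (by norm_num) (by positivity) ?_
    rw [← Real.rpow_natCast, ← Real.rpow_mul (by positivity), mul_comm _ (1100 : ℝ)]
    rw [show (7 : ℝ) / 8 * ((8 : ℕ) : ℝ) = ((7 : ℕ) : ℝ) by norm_num, Real.rpow_natCast]
    exact_mod_cast key

end Pool.Agent.Results.MP_65c863_al.UnitaryThree
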